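import Pool.Agent.Helper64.RN.Goals2

/-!
# Project RN part 2, packet DFB: a differential field with few constants containing a given one
-/

set_option autoImplicit false

noncomputable section

namespace Pool.Agent.Helper15.RN.DFB

open Pool.Agent.Helper64.RN

universe u

/-- Embedding of a finitely generated domain in an algebraically closed field with enough
algebraically independent elements. -/
theorem embed (K A : Type u) [Field K] [CommRing A] [IsDomain A] [Algebra K A] (p : ℕ)
    (y : Fin p → A) (hy : Algebra.adjoin K (Set.range y) = ⊤) :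
    ∃ d : ℕ, ∀ (M : Type u) [Field M] [IsAlgClosed M] [Algebra K M] (x : Fin d → M),
      AlgebraicIndependent K x → ∃ φ : A →ₐ[K] M, Function.Injective φ := by
  have hal : Algebra.IsAlgebraic (Algebra.adjoin K (Set.range y)) A := by
    refine ⟨fun a => ?_⟩
    have ha : a ∈ Algebra.adjoin K (Set.range y) := by rw [hy]; trivial
    exact isAlgebraic_algebraMap (⟨a, ha⟩ : Algebra.adjoin K (Set.range y))
  obtain ⟨s, hs, hb⟩ := exists_isTranscendenceBasis_subset (R := K) (A := A) (Set.range y)
  have hfin : Finite s := Set.Finite.subset (Set.finite_range y) hs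
  obtain ⟨d, ⟨e⟩⟩ := Finite.exists_equiv_fin s
  refine ⟨d, fun M _ _ _ x hx => ?_⟩
  have hx' : AlgebraicIndependent K (x ∘ e) := hx.comp e e.injective
  have hral := hb.isAlgebraic
  let R' := Algebra.adjoin K (Set.range (fun a : s => (a : A)))
  let θ : R' →ₐ[K] M := (MvPolynomial.aeval (x ∘ e)).comp hb.1.repr
  have hθ : Function.Injective θ := by
    have h1 : Function.Injective (MvPolynomial.aeval (R := K) (x ∘ e)) := hx'
    have h2 : Function.Injective hb.1.repr := hb.1.aevalEquiv.symm.injective
    exact h1.comp h2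
  let _ : Algebra R' M := θ.toRingHom.toAlgebra
  have hmap : ∀ r : R', algebraMap R' M r = θ r := fun r => rfl
  have : FaithfulSMul R' M := (faithfulSMul_iff_algebraMap_injective R' M).2 hθ
  have : Algebra.IsAlgebraic R' A := hral
  let ψ : A →ₐ[R'] M := IsAlgClosed.lift
  have hψ : Function.Injective ψ := by
    rw [injective_iff_map_eq_zero]
    intro a ha
    by_contra h0
    refine Ideal.comap_ne_bot_of_algebraic_mem (R := R') (I := RingHom.ker (ψ : A →+* M)) h0
      (by rw [RingHom.mem_ker]; exact ha) (Algebra.IsAlgebraic.isAlgebraic a) ?_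
    rw [eq_bot_iff]
    intro r hr
    rw [Ideal.mem_comap, RingHom.mem_ker] at hr
    have : ψ (algebraMap R' A r) = algebraMap R' M r := ψ.commutes r
    have h1 : algebraMap R' M r = 0 := by rw [← this]; exact hr
    rw [hmap] at h1
    rw [Ideal.mem_bot]
    exact hθ (by rw [h1, map_zero])
  refine ⟨{ (ψ : A →+* M) with commutes' := fun c => ?_ }, hψ⟩
  have h1 : ψ (algebraMap R' A (algebraMap K R' c)) = algebraMap R' M (algebraMap K R' c) :=
    ψ.commutes _
  rw [hmap, θ.commutes, ← IsScalarTower.algebraMap_apply] at h1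
  exact h1

open Polynomial Differential in
/-- Constants of a finite extension. -/
theorem const (K F Ω : Type u) [Field K] [IsAlgClosed K] [Field F] [Algebra K F] [Field Ω]
    [Algebra F Ω] [Algebra K Ω] [IsScalarTower K F Ω] [Differential F] [Differential Ω]
    [DifferentialAlgebra F Ω] [FiniteDimensional F Ω]
    (hF : ∀ g : F, (Differential.deriv g : F) = 0 → ∃ c : K, algebraMap K F c = g) (g : Ω)
    (hg : (Differential.deriv g : Ω) = 0) : ∃ c : K, algebraMap K Ω c = g := by
  have hint : IsIntegral F g := Algebra.IsIntegral.isIntegral g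
  set P := minpoly F g with hP
  have hmon : P.Monic := minpoly.monic hint
  have h1 := deriv_aeval_eq g P
  rw [hg, mul_zero, add_zero, minpoly.aeval, map_zero] at h1
  have hdeg : (mapCoeffs P).degree < P.degree := by
    rw [Polynomial.degree_eq_natDegree hmon.ne_zero, Polynomial.degree_lt_iff_coeff_zero]
    intro m hm
    rw [coeff_mapCoeffs]
    rcases hm.lt_or_eq with h | h
    · rw [Polynomial.coeff_eq_zero_of_natDegree_lt h, map_zero]
    · rw [← h, hmon.coeff_natDegree]
      exact Derivation.map_one_eq_zero _
  have hz : mapCoeffs P = 0 := by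
    by_contra h0
    exact absurd (minpoly.degree_le_of_ne_zero F g h0 h1.symm) (not_le.2 hdeg)
  have hco : ∀ n, P.coeff n ∈ Set.range (algebraMap K F) := by
    intro n
    have : (mapCoeffs P).coeff n = 0 := by rw [hz, Polynomial.coeff_zero]
    rw [coeff_mapCoeffs] at this
    exact hF _ this
  obtain ⟨Q, hQ⟩ := (Polynomial.mem_lifts P).1 ((Polynomial.lifts_iff_coeff_lifts P).2 hco)
  have hQ0 : Q ≠ 0 := by
    rintro rfl
    rw [Polynomial.map_zero] at hQ
    exact hmon.ne_zero hQ.symm
  have hgQ : aeval g Q = 0 := by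
    have : aeval g P = 0 := minpoly.aeval F g
    rwa [← hQ, Polynomial.aeval_map_algebraMap] at this
  have hgint : IsIntegral K g := isAlgebraic_iff_isIntegral.1 ⟨Q, hQ0, hgQ⟩
  have := IsAlgClosed.degree_eq_one_of_irreducible K (minpoly.irreducible hgint)
  exact minpoly.mem_range_of_degree_eq_one K g this

open Differential in
theorem t (hDFA : S_DFA.{u}) : S_DFB.{u} := by
  intro K _ _ _ p I hI
  let A := MvPolynomial (Fin p) K ⧸ I
  have hdom : IsDomain A := Ideal.Quotient.isDomain I
  let y : Fin p → A := fun i => Ideal.Quotient.mk I (MvPolynomial.X i)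
  have hy : Algebra.adjoin K (Set.range y) = ⊤ := by
    have h1 : (Ideal.Quotient.mkₐ K I).range = ⊤ :=
      (AlgHom.range_eq_top _).2 (Ideal.Quotient.mkₐ_surjective K I)
    rw [← h1, ← Algebra.map_top, ← MvPolynomial.adjoin_range_X, AlgHom.map_adjoin]
    congr 1
    rw [← Set.range_comp]
    rfl
  obtain ⟨d, hd⟩ := embed K A p y hy
  obtain ⟨F, _, _, δ, x, hx, hconst⟩ := hDFA K d
  let dF : Differential F := ⟨δ.restrictScalars ℤ⟩
  have hdF : ∀ a : F, (Differential.deriv a : F) = δ a := fun a => rfl
  have : CharZero F := charZero_of_injective_algebraMap (algebraMap K F).injective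
  let M := AlgebraicClosure F
  obtain ⟨φ, hφ⟩ := hd M (fun i => algebraMap F M (x i))
    (hx.map' (f := IsScalarTower.toAlgHom K F M) (algebraMap F M).injective)
  let Φ : MvPolynomial (Fin p) K →ₐ[K] M := φ.comp (Ideal.Quotient.mkₐ K I)
  let η0 : Fin p → M := fun i => Φ (MvPolynomial.X i)
  have hη0 : ∀ g, MvPolynomial.aeval η0 g = Φ g := by
    intro g
    exact (DFunLike.congr_fun (MvPolynomial.aeval_unique Φ) g).symm
  let Ω : IntermediateField F M := IntermediateField.adjoin F (Set.range η0)
  have hfin : FiniteDimensional F Ω :=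
    IntermediateField.finiteDimensional_adjoin fun z _ => Algebra.IsIntegral.isIntegral z
  let dΩ : Differential Ω := differentialFiniteDimensional F Ω
  have hdΩ : DifferentialAlgebra F Ω := differentialAlgebraFiniteDimensional
  have hK : ∀ c : K, (Differential.deriv (algebraMap K Ω c) : Ω) = 0 := by
    intro c
    rw [IsScalarTower.algebraMap_apply K F Ω, deriv_algebraMap, hdF, Derivation.map_algebraMap,
      map_zero]
  let D0 : Ω →ₗ[K] Ω :=
    { toFun := fun w => Differential.deriv w
      map_add' := fun a b => map_add _ a b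
      map_smul' := fun c w => by
        rw [Algebra.smul_def, Derivation.leibniz, hK, smul_zero, add_zero, RingHom.id_apply,
          smul_eq_mul, ← Algebra.smul_def] }
  let D : Derivation K Ω Ω := Derivation.mk' D0 fun a b => Derivation.leibniz _ a b
  let η : Fin p → Ω := fun i => ⟨η0 i, IntermediateField.subset_adjoin F _ ⟨i, rfl⟩⟩
  have htow : IsScalarTower K Ω M := IsScalarTower.of_algebraMap_eq fun c => by
    rw [IsScalarTower.algebraMap_apply K F Ω, IsScalarTower.algebraMap_apply K F M,
      IsScalarTower.algebraMap_apply F Ω M]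
  have hη : ∀ g : MvPolynomial (Fin p) K,
      ((MvPolynomial.aeval η g : Ω) : M) = MvPolynomial.aeval η0 g := by
    intro g
    have h := MvPolynomial.comp_aeval (R := K) η (IsScalarTower.toAlgHom K Ω M)
    exact DFunLike.congr_fun h g
  refine ⟨Ω, inferInstance, inferInstance, D, η, fun g => ?_, fun g hg => ?_⟩
  · have h1 : MvPolynomial.aeval η g = 0 ↔ Φ g = 0 := by
      rw [← hη0, ← hη]
      exact (ZeroMemClass.coe_eq_zero).symm
    rw [h1]
    have h2 : Φ g = φ (Ideal.Quotient.mk I g) := rfl
    rw [h2, map_eq_zero_iff φ hφ, Ideal.Quotient.eq_zero_iff_mem]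
  · exact const K F Ω (fun a ha => hconst a ha) g hg

end Pool.Agent.Helper15.RN.DFB
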